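import Mathlib
import Pool.Agent.Helper113.Graph

set_option autoImplicit false

namespace Pool.Agent.Results.MP_711cdf_lc.NoLargeFreeSet

open Cardinal Set Pool.Agent.Helper113 in
/-- the set mapping on an abstract well-order of type omega_{omega+1} -/
theorem core {K : Type} [LinearOrder K] [WellFoundedLT K] [Nonempty K]
    (hK : #K = Order.succ lam) (hI : ∀ a : K, #(Iio a) ≤ lam)
    (hG : ∀ κ : Cardinal.{0}, ℵ₀ ≤ κ → (2 : Cardinal.{0}) ^ κ = Order.succ κ) :
    ∃ N : K → Set K, (∀ α, N α ⊆ Iio α) ∧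
      (∀ A : Set K, (∀ γ, ∃ α ∈ A, γ < α) → ∃ α ∈ A, ∃ x ∈ A, x ∈ N α) ∧
      (∀ α β : K, β < α → #(N α ∩ N β : Set K) < lam) := by
  obtain ⟨D, E, hE⟩ := main_setup hK hI hG
  obtain ⟨X, hX⟩ := exists_graph D E
  refine ⟨Nb X, fun α => nb_sub (hX α), ?_, ?_⟩
  · intro A hA
    obtain ⟨n0, hn0⟩ := cat_of_unbounded hK hI D A hA
    have h1 : ∀ n, ∃ δ, n0 ≤ n → E n δ ⊆ A ∧ Good D n δ (E n δ) := by
      intro n
      by_cases hn : n0 ≤ n
      · obtain ⟨δ, hδ⟩ := hE n A (hn0 n hn)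
        exact ⟨δ, fun _ => hδ⟩
      · exact ⟨Classical.arbitrary K, fun h => absurd h hn⟩
    choose δ hδ using h1
    obtain ⟨i, hi⟩ := D.capture (fun n => {δ n}) (fun n =>
      small_subsingleton (aleph0_le_al n) subsingleton_singleton)
    obtain ⟨b, hb⟩ := strict_bound hK hI ({i} ∪ range δ) (by
      refine small_union aleph0_le_lam ?_ ?_
      · exact small_subsingleton aleph0_le_lam subsingleton_singleton
      · refine Cardinal.mk_range_le.trans ?_
        simpa using aleph0_le_lam)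
    obtain ⟨α, hαA, hbα⟩ := hA b
    obtain ⟨n1, hn1⟩ := hi α ((hb i (Or.inl rfl)).trans hbα)
    let n := max n0 n1
    obtain ⟨hsub, hgood⟩ := hδ n (le_max_left _ _)
    have hmem : δ n ∈ D.D n α := hn1 n (le_max_right _ _)
      ⟨rfl, (hb _ (Or.inr ⟨n, rfl⟩)).trans hbα⟩
    obtain ⟨x, hxX, hxE⟩ := (hX α).hit n (δ n) hmem hgood
    exact ⟨α, hαA, x, hsub hxE, mem_iUnion.2 ⟨n, hxX⟩⟩
  · intro α β hβα
    obtain ⟨n, hn⟩ := D.union α β hβα
    refine lt_of_le_of_lt (small_mono (t := ⋃ m ∈ Iio n, X α m) ?_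
      (small_biUnion (aleph0_le_al n) (Iio n) (small_finite (aleph0_le_al n) (finite_Iio _)) _
        (fun m hm => ((hX α).card m).trans (al_mono (le_of_lt hm))))) (al_lt_lam n)
    rintro x ⟨hxα, hxβ⟩
    obtain ⟨m, hm⟩ := mem_iUnion.1 hxα
    simp only [mem_iUnion]
    refine ⟨m, ?_, hm⟩
    by_contra hnot
    have h2 : β ∈ D.D m α := D.mono n m α (not_lt.1 hnot) hn
    exact (hX α).disj m β h2 x hm hxβ

/-- Under GCH there is an admissible set mapping on omega_{omega+1} all of whose free sets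
have cardinality at most aleph_omega. -/
theorem result :
    (∀ κ : Cardinal.{0}, Cardinal.aleph0 ≤ κ → (2 : Cardinal.{0}) ^ κ = Order.succ κ) →
    ∃ f : (Cardinal.aleph (Ordinal.omega0 + 1) : Cardinal.{0}).ord.ToType →
        Set (Cardinal.aleph (Ordinal.omega0 + 1) : Cardinal.{0}).ord.ToType,
      (∀ α, α ∉ f α) ∧
      (∀ α, Cardinal.mk (f α) ≤ Cardinal.aleph Ordinal.omega0) ∧
      (∀ α β, α ≠ β →
        Cardinal.mk (f α ∩ f β : Set (Cardinal.aleph (Ordinal.omega0 + 1)).ord.ToType) <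
          Cardinal.aleph Ordinal.omega0) ∧
      ∀ Y : Set (Cardinal.aleph (Ordinal.omega0 + 1) : Cardinal.{0}).ord.ToType,
        (∀ α ∈ Y, ∀ β ∈ Y, α ≠ β → β ∉ f α) →
        Cardinal.mk Y ≤ Cardinal.aleph Ordinal.omega0 := by
  intro hG
  set o : Ordinal.{0} := (Cardinal.aleph (Ordinal.omega0 + 1)).ord with ho
  have hcard : Cardinal.aleph (Ordinal.omega0 + 1) = Order.succ Pool.Agent.Helper113.lam := by
    rw [← Cardinal.succ_aleph]
    rfl
  have hK : Cardinal.mk o.ToType = Order.succ Pool.Agent.Helper113.lam := by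
    rw [ho, Cardinal.mk_ord_toType, hcard]
  have hI : ∀ a : o.ToType, Cardinal.mk (Set.Iio a) ≤ Pool.Agent.Helper113.lam := by
    intro a
    have h := Cardinal.mk_Iio_lt a (by rw [hK]; simp [ho, hcard])
    rw [hK] at h
    exact Order.lt_succ_iff.1 h
  have hne : Nonempty o.ToType := by
    rw [← Cardinal.mk_ne_zero_iff, hK]
    exact (Cardinal.succ_pos _).ne'
  obtain ⟨N, hN1, hN2, hN3⟩ := core hK hI hG
  refine ⟨N, fun α h => lt_irrefl α (Set.mem_Iio.1 (hN1 α h)), ?_, ?_, ?_⟩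
  · intro α
    exact Pool.Agent.Helper113.small_mono (hN1 α) (hI α)
  · intro α β hne
    rcases lt_or_gt_of_ne hne with h | h
    · rw [Set.inter_comm]
      exact hN3 β α h
    · exact hN3 α β h
  · intro Y hY
    by_contra hbig
    obtain ⟨α, hα, x, hx, hxα⟩ := hN2 Y (by
      intro γ
      by_contra hcon
      push Not at hcon
      apply hbig
      refine Pool.Agent.Helper113.small_mono (t := Set.Iio γ ∪ {γ}) ?_
        (Pool.Agent.Helper113.small_union Pool.Agent.Helper113.aleph0_le_lam (hI γ)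
          (Pool.Agent.Helper113.small_subsingleton Pool.Agent.Helper113.aleph0_le_lam
            Set.subsingleton_singleton))
      intro y hy
      rcases lt_or_eq_of_le (hcon y hy) with h | h
      · exact Or.inl h
      · exact Or.inr h)
    have hlt : x < α := hN1 α hxα
    exact hY α hα x hx hlt.ne' hxα

end Pool.Agent.Results.MP_711cdf_lc.NoLargeFreeSet
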